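import Pool.Agent.Helper95.C2.Spec

/-! NRM: the discriminant of `A (G + h^8) + b` modulo `8`. -/

set_option autoImplicit false

open Polynomial

namespace Pool.Agent.Helper51.C2.NRM

open Pool.Agent.Helper95.C2

universe u

lemma sgn_even {S : Type u} [CommRing S] (k l : ℕ) : ((-1 : S)) ^ (k + 2 * l) = (-1) ^ k := by
  rw [pow_add, pow_mul, neg_one_sq, one_pow, mul_one]

lemma tri_step (N : ℕ) : (N + 8) * (N + 8 - 1) / 2 = N * (N - 1) / 2 + 2 * (4 * N + 14) := by
  have h : (N + 8) * (N + 8 - 1) = N * (N - 1) + 2 * (2 * (4 * N + 14)) := by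
    rcases N with _ | k
    · norm_num
    · simp only [Nat.add_sub_cancel]
      have : k + 1 + 8 - 1 = k + 8 := by omega
      rw [this]
      ring
  rw [h, Nat.add_mul_div_left _ _ (by norm_num)]

lemma tri_sgn {S : Type u} [CommRing S] (a H : ℕ) :
    ((-1 : S)) ^ ((a + 8 * H) * (a + 8 * H - 1) / 2) = (-1) ^ (a * (a - 1) / 2) := by
  induction H with
  | zero => simp
  | succ H ih =>
    have : a + 8 * (H + 1) = a + 8 * H + 8 := by ring
    rw [this, tri_step, sgn_even, ih]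

/-- NRM -/
theorem main : S_NRM.{u} := by
  intro S _ _ h8 A G M b μ hA hM hb hμ hdef
  obtain ⟨b, rfl⟩ := hb
  obtain ⟨a, ha⟩ : ∃ a, a = A.natDegree := ⟨_, rfl⟩
  obtain ⟨m, hm⟩ : ∃ m, m = M.natDegree := ⟨_, rfl⟩
  refine ⟨(-1) ^ (a * (a - 1) / 2) * (-1) ^ (a * a) * (-1) ^ (a * m) *
    ((b⁻¹ : Sˣ) : S) ^ a * μ ^ a, ?_⟩
  intro h hh hdeg
  obtain ⟨H, hH⟩ : ∃ H, H = h.natDegree := ⟨_, rfl⟩
  have hHpos : 0 < H := by omega
  have hh8 : (h ^ 8).Monic := hh.pow 8
  have hh8d : (h ^ 8).natDegree = 8 * H := by rw [hh.natDegree_pow, hH]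
  have hlt : G.natDegree < (h ^ 8).natDegree := by rw [hh8d, hH]; exact hdeg
  have hP : (G + h ^ 8).Monic := hh8.add_of_right (degree_lt_degree hlt)
  have hPd : (G + h ^ 8).natDegree = 8 * H := by
    rw [natDegree_add_eq_right_of_natDegree_lt hlt, hh8d]
  have hAP : (A * (G + h ^ 8)).Monic := hA.mul hP
  have hAPd : (A * (G + h ^ 8)).natDegree = a + 8 * H := by rw [hA.natDegree_mul hP, hPd, ha]
  obtain ⟨L, hL⟩ : ∃ L, L = A * (G + h ^ 8) + C (b : S) := ⟨_, rfl⟩
  have hLm : L.Monic := by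
    rw [hL]
    apply hAP.add_of_left
    apply lt_of_le_of_lt degree_C_le
    rw [← natDegree_pos_iff_degree_pos, hAPd]
    omega
  have hLd : L.natDegree = a + 8 * H := by rw [hL, natDegree_add_C, hAPd]
  rw [← hL, ← hH]
  have h8' : (8 : S[X]) = 0 := by
    have : (8 : S[X]) = C (8 : S) := by rw [map_ofNat]
    rw [this, h8, C_0]
  have hd : derivative L = derivative A * (G + h ^ 8) + A * derivative G := by
    rw [hL, derivative_add, derivative_C, derivative_mul, derivative_add, derivative_pow]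
    have h8'' : (C ((8 : ℕ) : S) : S[X]) = 0 := by
      rw [Nat.cast_ofNat, h8, C_0]
    rw [h8'']
    ring
  have hAL : A * derivative L = derivative A * L + C μ * M := by
    rw [← hdef, hd, hL]
    ring
  have e1 := rs_mul_right hLm A (derivative L)
  have e2 : rs L (A * derivative L) = rs L (C μ * M) :=
    rs_congr hLm ⟨derivative A, by rw [hAL]; ring⟩
  have e3 : rs L (C μ * M) = μ ^ (a + 8 * H) * rs L M := by
    rw [rs_mul_right hLm, rs_C, hLd]
  have e4 : rs L A = (-1) ^ (a * a) * (b : S) ^ a := by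
    rw [rs_comm, hLd, ← ha]
    have h1 : rs A L = rs A (C (b : S)) := rs_congr hA ⟨G + h ^ 8, by rw [hL]; ring⟩
    rw [h1, rs_C, ← ha]
    congr 1
    have : (a + 8 * H) * a = a * a + 2 * (4 * H * a) := by ring
    rw [this, sgn_even]
  have e5 : rs L M = (-1) ^ (a * m) * rs M L := by
    rw [rs_comm, hLd, ← hm]
    congr 1
    have : (a + 8 * H) * m = a * m + 2 * (4 * H * m) := by ring
    rw [this, sgn_even]
  rw [e1, e3, e4, e5] at e2
  have hs : ((-1 : S)) ^ (a * a) * (-1) ^ (a * a) = 1 := by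
    rw [← pow_add, ← two_mul, pow_mul, neg_one_sq, one_pow]
  have hbb : ((b⁻¹ : Sˣ) : S) ^ a * (b : S) ^ a = 1 := by
    rw [← mul_pow, Units.inv_mul, one_pow]
  have e6 : rs L (derivative L) = (-1) ^ (a * a) * ((b⁻¹ : Sˣ) : S) ^ a *
      (μ ^ (a + 8 * H) * ((-1) ^ (a * m) * rs M L)) := by
    rw [← e2]
    calc rs L (derivative L) = (((-1 : S)) ^ (a * a) * (-1) ^ (a * a)) *
          (((b⁻¹ : Sˣ) : S) ^ a * (b : S) ^ a) * rs L (derivative L) := by rw [hs, hbb]; ring
      _ = _ := by ring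
  unfold dsc
  rw [hLd, tri_sgn, e6]
  ring

end Pool.Agent.Helper51.C2.NRM
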