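import Pool.Agent.Helper95.C2.Spec
import Pool.Graph.R_pool_sql_team_seeded_f72693b1.W269.BL.RED

/-! PAR: comparison of the Liouville values of the reductions of `f` and `g`. -/

set_option autoImplicit false

open Polynomial

namespace Pool.Agent.Helper51.C2.PAR

open Pool.Agent.Helper95.C2

universe u

lemma cc_map {R S : Type u} [CommRing R] [CommRing S] (φ : R →+* S) (x : WittVector 2 R) :
    cc S (WittVector.map φ x) = φ (cc R x) := by
  simp [cc, WittVector.constantCoeff, WittVector.map_coeff]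

lemma tr2_map {R S : Type u} [CommRing R] [CommRing S] (φ : R →+* S) (m : ℕ) (x : R) :
    φ (tr2 m x) = tr2 m (φ x) := by
  unfold tr2
  rw [map_sum]
  simp [map_pow]

/-- the telescoping sum -/
lemma tr2_tele {Ω : Type u} [Field Ω] [CharP Ω 2] (m : ℕ) (w : Ω) :
    tr2 m (w + w ^ 2) = w + w ^ 2 ^ m := by
  induction m with
  | zero =>
    simp only [tr2, Finset.range_zero, Finset.sum_empty, pow_zero, pow_one]
    exact (CharTwo.add_self_eq_zero w).symm
  | succ m ih =>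
    have h1 : tr2 (m + 1) (w + w ^ 2) = tr2 m (w + w ^ 2) + (w + w ^ 2) ^ 2 ^ m := by
      unfold tr2
      rw [Finset.sum_range_succ]
    rw [h1, ih, add_pow_char_pow]
    have h2 : (w ^ 2) ^ 2 ^ m = w ^ 2 ^ (m + 1) := by
      rw [← pow_mul, pow_succ, mul_comm]
    rw [h2]
    have h3 := CharTwo.add_self_eq_zero (w ^ 2 ^ m)
    linear_combination h3

/-- PAR -/
theorem main (hFRB : S_FRB.{u}) : S_PAR.{u} := by
  intro K _ _ _ m hm f g ρ z hf hg hfs hgs hρ hdvd hpar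
  obtain ⟨δf, hδfu, hδf2, hδfP⟩ := hFRB K m hm f hf hfs
  obtain ⟨δg, hδgu, hδg2, hδgP⟩ := hFRB K m hm g hg hgs
  obtain ⟨t, ht⟩ := hdvd
  let Ω := AlgebraicClosure K
  let ι : WittVector 2 K →+* WittVector 2 Ω := WittVector.map (algebraMap K Ω)
  -- the Frobenius fixes the image of `W(K)`
  have hfix : ∀ x : WittVector 2 K, Phi Ω m (ι x) = ι x := by
    intro x
    ext n
    simp only [Phi, ι, WittVector.map_coeff, iterateFrobenius_def]
    rw [← map_pow, ← hm, FiniteField.pow_card]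
  have hιρ : IsUnit (ι ρ) := hρ.map ι
  obtain ⟨u, hu⟩ := hιρ.mul hδgu
  -- the quotient
  obtain ⟨δ, hδ⟩ : ∃ δ, δ = δf * ((u⁻¹ : (WittVector 2 Ω)ˣ) : WittVector 2 Ω) := ⟨_, rfl⟩
  have hδu : δ * (ι ρ * δg) = δf := by
    rw [hδ, ← hu, mul_assoc, Units.inv_mul, mul_one]
  have hδfι : δf ^ 2 = ι (dsc f) := hδf2
  have hδgι : δg ^ 2 = ι (dsc g) := hδg2
  have hιt : ι (dsc f) = ι ρ ^ 2 * (1 + 4 * ι z) * ι (dsc g) + 8 * ι t := by
    have h1 : dsc f = ρ ^ 2 * (1 + 4 * z) * dsc g + 8 * t := by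
      rw [← ht]; ring
    rw [h1]
    simp only [map_add, map_mul, map_pow, map_one, map_ofNat]
  obtain ⟨τ, hτ⟩ : ∃ τ, τ = ι t * ((u⁻¹ : (WittVector 2 Ω)ˣ) : WittVector 2 Ω) ^ 2 := ⟨_, rfl⟩
  have hδsq : δ ^ 2 = 1 + 4 * (ι z + 2 * τ) := by
    have h1 : (u : WittVector 2 Ω) * ((u⁻¹ : (WittVector 2 Ω)ˣ) : WittVector 2 Ω) = 1 :=
      Units.mul_inv u
    have h2 : δ ^ 2 = δf ^ 2 * ((u⁻¹ : (WittVector 2 Ω)ˣ) : WittVector 2 Ω) ^ 2 := by
      rw [hδ]; ring
    have h3 : δf ^ 2 = (u : WittVector 2 Ω) ^ 2 * (1 + 4 * ι z) + 8 * ι t := by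
      rw [hδfι, hιt, hu, ← hδgι]; ring
    rw [h2, h3, hτ]
    have h4 : (u : WittVector 2 Ω) ^ 2 *
        ((u⁻¹ : (WittVector 2 Ω)ˣ) : WittVector 2 Ω) ^ 2 = 1 := by
      rw [← mul_pow, h1, one_pow]
    linear_combination (1 + 4 * ι z) * h4
  -- residues
  have h20 : (2 : Ω) = 0 := CharP.cast_eq_zero Ω 2
  have hccδ : cc Ω δ = 1 := by
    have h1 := congrArg (cc Ω) hδsq
    simp only [map_add, map_mul, map_pow, map_one, map_ofNat] at h1
    have h40 : (4 : Ω) = 0 := by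
      have : (4 : Ω) = 2 * 2 := by norm_num
      rw [this, h20, mul_zero]
    rw [h40, zero_mul, add_zero] at h1
    have h3 : (cc Ω δ - 1) ^ 2 = 0 := by
      have : (cc Ω δ - 1) ^ 2 = cc Ω δ ^ 2 - 2 * cc Ω δ + 1 := by ring
      rw [this, h1, h20, zero_mul, sub_zero]
      have : (1 : Ω) + 1 = 2 := by norm_num
      rw [this, h20]
    have h4 := pow_eq_zero_iff (two_ne_zero) |>.mp h3
    exact sub_eq_zero.mp h4
  have h2dvd : (2 : WittVector 2 Ω) ∣ δ - 1 := by
    rw [← cc_eq_zero_iff, map_sub, hccδ, map_one, sub_self]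
  obtain ⟨w, hw⟩ := h2dvd
  have hδw : δ = 1 + 2 * w := by rw [← hw]; ring
  have h2ne : (2 : WittVector 2 Ω) ≠ 0 := by
    exact_mod_cast WittVector.p_nonzero 2 Ω
  have hww : w + w ^ 2 = ι z + 2 * τ := by
    have h1 : (2 : WittVector 2 Ω) * (2 * (w + w ^ 2)) = 2 * (2 * (ι z + 2 * τ)) := by
      have h2 := hδsq
      rw [hδw] at h2
      linear_combination h2
    exact mul_left_cancel₀ h2ne (mul_left_cancel₀ h2ne h1)
  have hwbar : algebraMap K Ω (cc K z) = cc Ω w + cc Ω w ^ 2 := by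
    have h1 := congrArg (cc Ω) hww
    simp only [map_add, map_mul, map_pow, map_ofNat] at h1
    rw [h20, zero_mul, add_zero] at h1
    rw [h1]
    exact (cc_map (algebraMap K Ω) z).symm
  have htr : algebraMap K Ω (tr2 m (cc K z)) = cc Ω w + cc Ω w ^ 2 ^ m := by
    rw [tr2_map, hwbar, tr2_tele]
  -- Frobenius
  have hPw : cc Ω (Phi Ω m w) = cc Ω w ^ 2 ^ m := by
    unfold Phi
    rw [cc_map, iterateFrobenius_def]
  obtain ⟨s, hs⟩ : ∃ s : ℤ, s = lam (f.map (cc K)) * lam (g.map (cc K)) := ⟨_, rfl⟩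
  have hsq : ∀ F : K[X], lam F * lam F = 1 := by
    intro F
    rcases Pool.Agent.W269.BL.RED.lam_pm F with h | h
    · have h' : lam F = 1 := h
      rw [h']; norm_num
    · have h' : lam F = -1 := h
      rw [h']; norm_num
  have hPδ : Phi Ω m δ = (s : WittVector 2 Ω) * δ := by
    have h1 : Phi Ω m δ * (ι ρ * Phi Ω m δg) = Phi Ω m δf := by
      rw [← hδu, map_mul, map_mul, hfix]
    have h2 : Phi Ω m δf = (((-1) ^ f.natDegree * lam (f.map (cc K)) : ℤ) : WittVector 2 Ω) * δf :=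
      hδfP
    have h3 : Phi Ω m δg = (((-1) ^ g.natDegree * lam (g.map (cc K)) : ℤ) : WittVector 2 Ω) * δg :=
      hδgP
    rw [h2, h3, ← hδu] at h1
    have hpow : ((-1 : ℤ)) ^ f.natDegree = (-1) ^ g.natDegree :=
      neg_one_pow_congr (by rw [Nat.even_iff, Nat.even_iff, hpar])
    rw [hpow] at h1
    obtain ⟨e, he⟩ : ∃ e : ℤ, e = (-1) ^ g.natDegree := ⟨_, rfl⟩
    rw [← he] at h1
    have hee : e * e = 1 := by
      rw [he, ← pow_add, ← two_mul, pow_mul]; norm_num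
    have hll := hsq (g.map (cc K))
    obtain ⟨lf, hlf⟩ : ∃ lf : ℤ, lf = lam (f.map (cc K)) := ⟨_, rfl⟩
    obtain ⟨lg, hlg⟩ : ∃ lg : ℤ, lg = lam (g.map (cc K)) := ⟨_, rfl⟩
    rw [← hlf, ← hlg] at h1
    rw [← hlg] at hll
    rw [← hlf, ← hlg] at hs
    have hee' : ((e : ℤ) : WittVector 2 Ω) * e = 1 := by
      rw [← Int.cast_mul, hee, Int.cast_one]
    have hll' : ((lg : ℤ) : WittVector 2 Ω) * lg = 1 := by
      rw [← Int.cast_mul, hll, Int.cast_one]
    have hun : (ι ρ * δg) * ((u⁻¹ : (WittVector 2 Ω)ˣ) : WittVector 2 Ω) = 1 := by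
      rw [← hu]; exact Units.mul_inv u
    have h4 : Phi Ω m δ * (ι ρ * δg) = (s : WittVector 2 Ω) * δ * (ι ρ * δg) := by
      rw [Int.cast_mul, Int.cast_mul] at h1
      rw [hs, Int.cast_mul]
      calc Phi Ω m δ * (ι ρ * δg) = (((e : ℤ) : WittVector 2 Ω) * e) *
            (((lg : ℤ) : WittVector 2 Ω) * lg) * (Phi Ω m δ * (ι ρ * δg)) := by
              rw [hee', hll']; ring
        _ = (e : WittVector 2 Ω) * lg * (Phi Ω m δ * (ι ρ * ((e : WittVector 2 Ω) * lg * δg))) := by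
              ring
        _ = (e : WittVector 2 Ω) * lg * ((e : WittVector 2 Ω) * lf * (δ * (ι ρ * δg))) := by
              rw [h1]
        _ = (((e : ℤ) : WittVector 2 Ω) * e) * ((lf : WittVector 2 Ω) * lg * δ * (ι ρ * δg)) := by
              ring
        _ = _ := by rw [hee']; ring
    calc Phi Ω m δ = Phi Ω m δ * ((ι ρ * δg) *
          ((u⁻¹ : (WittVector 2 Ω)ˣ) : WittVector 2 Ω)) := by rw [hun, mul_one]
      _ = (Phi Ω m δ * (ι ρ * δg)) * ((u⁻¹ : (WittVector 2 Ω)ˣ) : WittVector 2 Ω) := by ring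
      _ = ((s : WittVector 2 Ω) * δ * (ι ρ * δg)) *
            ((u⁻¹ : (WittVector 2 Ω)ˣ) : WittVector 2 Ω) := by rw [h4]
      _ = (s : WittVector 2 Ω) * δ * ((ι ρ * δg) *
            ((u⁻¹ : (WittVector 2 Ω)ˣ) : WittVector 2 Ω)) := by ring
      _ = _ := by rw [hun, mul_one]
  have hinj : Function.Injective (algebraMap K Ω) := (algebraMap K Ω).injective
  have hone : ∀ x : Ω, x + x = 0 := fun x => CharTwo.add_self_eq_zero x
  constructor
  · intro heq
    have hs1 : s = 1 := by rw [hs, heq]; exact hsq _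
    rw [hs1, Int.cast_one, one_mul, hδw, map_add, map_mul, map_one, map_ofNat] at hPδ
    have h1 : Phi Ω m w = w := by
      apply mul_left_cancel₀ h2ne
      linear_combination hPδ
    have h2 : cc Ω w ^ 2 ^ m = cc Ω w := by rw [← hPw, h1]
    apply hinj
    rw [htr, h2, map_zero, hone]
  · intro h0
    by_contra hne
    have hs1 : s = -1 := by
      rw [hs]
      rcases Pool.Agent.W269.BL.RED.lam_pm (f.map (cc K)) with h | h <;>
        rcases Pool.Agent.W269.BL.RED.lam_pm (g.map (cc K)) with h' | h'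
      · exact absurd (h.trans h'.symm) hne
      · have e1 : lam (f.map (cc K)) = 1 := h
        have e2 : lam (g.map (cc K)) = -1 := h'
        rw [e1, e2]; norm_num
      · have e1 : lam (f.map (cc K)) = -1 := h
        have e2 : lam (g.map (cc K)) = 1 := h'
        rw [e1, e2]; norm_num
      · exact absurd (h.trans h'.symm) hne
    rw [hs1, hδw, map_add, map_mul, map_one, map_ofNat] at hPδ
    have h1 : Phi Ω m w = -1 - w := by
      apply mul_left_cancel₀ h2ne
      rw [Int.cast_neg, Int.cast_one] at hPδ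
      linear_combination hPδ
    have h2 : cc Ω w ^ 2 ^ m = -1 - cc Ω w := by
      rw [← hPw, h1]
      simp only [map_sub, map_neg, map_one]
    rw [h0, map_zero, h2] at htr
    have h3 : (1 : Ω) = 0 := by linear_combination htr
    exact one_ne_zero h3

end Pool.Agent.Helper51.C2.PAR
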